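import Mathlib

/-!
# The parity theorem for Latin squares

For a finite quasigroup with operation `op`, let `A (x, y) = (x, x y)`, `B (x, y) = (x y, y)` and
`C (x, s) = (x \ s, s)`, permutations of `Q × Q` whose signs are the products of the signs of all row,
column and symbol permutations. Then `sign C * sign A = (-1)^(n(n-1)/2) * sign B`.
-/

set_option autoImplicit false

namespace Pool.Agent.X19.LatinParity

open Equiv

variable {Q : Type*} [Fintype Q] [DecidableEq Q]

/-- sign of the swap of `Q × Q` -/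
lemma sign_prodComm :
    Perm.sign (Equiv.prodComm Q Q : Perm (Q × Q)) =
      (-1) ^ ((Fintype.card Q * Fintype.card Q - Fintype.card Q) / 2) := by
  have h2 : (Equiv.prodComm Q Q : Perm (Q × Q)) ^ 2 = 1 := by
    ext ⟨a, b⟩ <;> simp [sq]
  rw [Perm.sign_of_pow_two_eq_one h2, Fintype.card_prod]
  congr 3
  refine Fintype.card_congr ?_
  refine ⟨fun t => t.1.1, fun a => ⟨(a, a), rfl⟩, ?_, fun a => rfl⟩
  rintro ⟨⟨a, b⟩, h⟩
  have : b = a := congrArg Prod.fst h
  subst this
  rfl

/-- the three permutations attached to a Latin square: `gam ∘ alp = swap ∘ bet`. -/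
theorem parity (op : Q → Q → Q) (alp bet gam : Perm (Q × Q))
    (ha : ∀ x y, alp (x, y) = (x, op x y)) (hb : ∀ x y, bet (x, y) = (op x y, y))
    (hc : ∀ x y, gam (x, op x y) = (y, op x y)) :
    Perm.sign gam * Perm.sign alp =
      (-1) ^ ((Fintype.card Q * Fintype.card Q - Fintype.card Q) / 2) * Perm.sign bet := by
  have h : gam * alp = (Equiv.prodComm Q Q : Perm (Q × Q)) * bet := by
    ext1 ⟨x, y⟩
    rw [Perm.mul_apply, Perm.mul_apply, ha, hb, hc]
    rfl
  rw [← Perm.sign_mul, h, Perm.sign_mul, sign_prodComm]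

/-- arithmetic: if `(-1)^((n² - n)/2) = 1` then `n ≡ 0, 1 (mod 4)`. -/
lemma mod_four {n : ℕ} (h : ((-1 : ℤˣ)) ^ ((n * n - n) / 2) = 1) : n % 4 = 0 ∨ n % 4 = 1 := by
  have heven : Even ((n * n - n) / 2) := by
    by_contra hne
    rw [Nat.not_even_iff_odd] at hne
    rw [hne.neg_one_pow] at h
    exact absurd h (by decide)
  obtain ⟨q, r, hr, rfl⟩ : ∃ q r, r < 4 ∧ n = 4 * q + r := ⟨n / 4, n % 4, Nat.mod_lt _ (by norm_num), by omega⟩
  obtain ⟨t, ht⟩ := heven
  interval_cases r
  · left; omega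
  · right; omega
  · exfalso
    have e : (4 * q + 2) * (4 * q + 2) - (4 * q + 2) = 2 * (2 * (4 * q * q + 3 * q) + 1) := by
      have : (4 * q + 2) * (4 * q + 2) = 2 * (2 * (4 * q * q + 3 * q) + 1) + (4 * q + 2) := by ring
      omega
    rw [e] at ht
    omega
  · exfalso
    have e : (4 * q + 3) * (4 * q + 3) - (4 * q + 3) = 2 * (2 * (4 * q * q + 5 * q + 1) + 1) := by
      have : (4 * q + 3) * (4 * q + 3) = 2 * (2 * (4 * q * q + 5 * q + 1) + 1) + (4 * q + 3) := by ring
      omega
    rw [e] at ht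
    omega

end Pool.Agent.X19.LatinParity
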