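import Mathlib

/-!
# The Liouville function on `n² + d`

For every nonzero integer `d` there are infinitely many `n` with `n² + d > 0` and `Ω(n² + d)` odd.
-/

set_option autoImplicit false

namespace Pool.Agent.X19.LQ

open ArithmeticFunction

/-- parity of the number of prime factors of an integer (through its absolute value) -/
def Om (z : ℤ) : ℕ := cardFactors z.natAbs

lemma Om_mul {a b : ℤ} (ha : a ≠ 0) (hb : b ≠ 0) : Om (a * b) = Om a + Om b := by
  unfold Om
  rw [Int.natAbs_mul, cardFactors_mul (Int.natAbs_ne_zero.2 ha) (Int.natAbs_ne_zero.2 hb)]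

lemma Om_sq {a : ℤ} (ha : a ≠ 0) : Om (a ^ 2) = 2 * Om a := by
  rw [sq, Om_mul ha ha]; ring

lemma Om_prime {p : ℕ} (hp : p.Prime) : Om (p : ℤ) = 1 := by
  unfold Om
  rw [Int.natAbs_natCast]
  exact cardFactors_apply_prime hp

lemma posaux {a b : ℤ} (h : 0 < a * b) (ha : 0 < a) : 0 < b := by
  by_contra hb
  push Not at hb
  nlinarith [mul_nonneg ha.le (neg_nonneg.2 hb)]

/-- Descent along the Farey graph: if all `n² + d > 0` have even `Ω`, then so do all
`x² + d y² > 0`. -/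
lemma descent (d : ℤ) (H : ∀ n : ℤ, 0 < n ^ 2 + d → Even (Om (n ^ 2 + d))) :
    ∀ k : ℕ, ∀ x y : ℤ, y.natAbs = k → 0 < x ^ 2 + d * y ^ 2 → Even (Om (x ^ 2 + d * y ^ 2)) := by
  intro k
  induction k using Nat.strong_induction_on with
  | _ k ih =>
    intro x y hy hpos
    -- reduce to x, y ≥ 0
    wlog hx0 : 0 ≤ x with Hx
    · have := Hx d H k ih (-x) y hy (by simpa using hpos) (by linarith [not_le.1 hx0])
      simpa using this
    wlog hy0 : 0 ≤ y with Hy
    · have := Hy d H k ih x (-y) (by simpa using hy) (by simpa using hpos) hx0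
        (by linarith [not_le.1 hy0])
      simpa using this
    rcases Nat.lt_or_ge k 2 with hk | hk
    · interval_cases k
      · have : y = 0 := by simpa using hy
        subst this
        have hx : x ≠ 0 := by
          rintro rfl
          simp at hpos
        have e : x ^ 2 + d * 0 ^ 2 = x ^ 2 := by ring
        rw [e, Om_sq hx]
        exact even_two_mul _
      · have h1 : y = 1 := by omega
        subst h1
        have e : x ^ 2 + d * 1 ^ 2 = x ^ 2 + d := by ring
        rw [e] at hpos ⊢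
        exact H x hpos
    · have hyk : y = (k : ℤ) := by omega
      have hy2 : 2 ≤ y := by omega
      by_cases hg : Int.gcd x y = 1
      · -- coprime case
        have hcop : IsCoprime x y := Int.isCoprime_iff_gcd_eq_one.2 hg
        obtain ⟨a, b, hab⟩ := hcop
        -- a * x + b * y = 1 ; choose v ≡ -a mod y
        set v : ℤ := (-a) % y with hv
        have hv0 : 0 ≤ v := Int.emod_nonneg _ (by omega)
        have hvy : v < y := Int.emod_lt_of_pos _ (by omega)
        have hdvd : y ∣ x * v + 1 := by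
          have h1 : y ∣ (v - (-a)) := by
            have := Int.emod_emod_of_dvd (-a) (dvd_refl y)
            have h2 : v = (-a) - y * ((-a) / y) := by
              rw [hv]; have := Int.emod_add_mul_ediv (-a) y; linarith
            rw [h2]
            exact ⟨-((-a) / y), by ring⟩
          have h3 : x * v + 1 = x * (v - (-a)) + b * y := by linear_combination (-1 : ℤ) * hab
          rw [h3]
          exact dvd_add (Dvd.dvd.mul_left h1 x) (Dvd.intro_left b rfl)
        obtain ⟨u, hu⟩ := hdvd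
        -- hu : x * v + 1 = y * u
        have hNpos : 0 < u ^ 2 + d * v ^ 2 := by
          have h1 : y ^ 2 * (u ^ 2 + d * v ^ 2) = v ^ 2 * (x ^ 2 + d * y ^ 2) + 2 * (x * v) + 1 := by
            have : (y * u) ^ 2 = (x * v + 1) ^ 2 := by rw [hu]
            linear_combination this
          have h2 : 0 < y ^ 2 * (u ^ 2 + d * v ^ 2) := by
            rw [h1]
            have := mul_nonneg (sq_nonneg v) hpos.le
            have := mul_nonneg hx0 hv0
            linarith
          exact posaux h2 (by positivity)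
        have hprod : (x ^ 2 + d * y ^ 2) * (u ^ 2 + d * v ^ 2) = (x * u + d * y * v) ^ 2 + d := by
          have h1 : y * u - x * v = 1 := by linarith
          have h2 : (y * u - x * v) ^ 2 = 1 := by rw [h1]; norm_num
          linear_combination d * h2
        have hE1 : Even (Om ((x * u + d * y * v) ^ 2 + d)) := by
          apply H
          rw [← hprod]
          exact mul_pos hpos hNpos
        have hE2 : Even (Om (u ^ 2 + d * v ^ 2)) :=
          ih v.natAbs (by omega) u v rfl hNpos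
        rw [← hprod, Om_mul hpos.ne' hNpos.ne'] at hE1
        rcases hE1 with ⟨s, hs⟩
        rcases hE2 with ⟨t, ht⟩
        exact ⟨s - t, by omega⟩
      · -- common factor
        have hg0 : Int.gcd x y ≠ 0 := by
          intro h0
          rw [Int.gcd_eq_zero_iff] at h0
          omega
        obtain ⟨x', hx'⟩ := Int.gcd_dvd_left x y
        obtain ⟨y', hy'⟩ := Int.gcd_dvd_right x y
        set g : ℤ := (Int.gcd x y : ℤ) with hgdef
        have hg2 : 2 ≤ g := by
          have : 2 ≤ Int.gcd x y := by omega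
          rw [hgdef]; exact_mod_cast this
        have hN : x ^ 2 + d * y ^ 2 = g ^ 2 * (x' ^ 2 + d * y' ^ 2) := by
          rw [hx', hy']; ring
        have hpos' : 0 < x' ^ 2 + d * y' ^ 2 := by
          rw [hN] at hpos
          exact posaux hpos (by positivity)
        have hy'pos : 0 < y' := by nlinarith
        have hlt : y'.natAbs < k := by
          have : y' < y := by nlinarith
          omega
        rw [hN, Om_mul (by positivity) hpos'.ne', Om_sq (by positivity)]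
        have := ih y'.natAbs hlt x' y' rfl hpos'
        exact (even_two_mul _).add this

/-- Pell step: one value with odd `Ω` gives infinitely many. -/
lemma pell_inf (d : ℤ) (n0 : ℤ) (hpos : 0 < n0 ^ 2 + d) (hodd : Odd (Om (n0 ^ 2 + d))) :
    Set.Infinite {n : ℕ | 1 ≤ n ∧ 0 < (n : ℤ) ^ 2 + d ∧ Odd (Om ((n : ℤ) ^ 2 + d))} := by
  set M : ℤ := n0 ^ 2 + d with hM
  have hns : ¬ IsSquare M := by
    rintro ⟨r, hr⟩
    have hr0 : r ≠ 0 := by
      rintro rfl
      simp at hr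
      omega
    rw [hr, ← sq, Om_sq hr0] at hodd
    exact (Nat.not_odd_iff_even.2 (even_two_mul _)) hodd
  obtain ⟨a, b, hab, hb⟩ := Pell.exists_of_not_isSquare hpos hns
  have ha0 : a ≠ 0 := by
    rintro rfl
    nlinarith [sq_nonneg b]
  -- positive versions
  have hab' : |a| ^ 2 - M * |b| ^ 2 = 1 := by simpa [sq_abs] using hab
  have hA : 1 ≤ |a| := Int.one_le_abs ha0
  have hB : 1 ≤ |b| := Int.one_le_abs hb
  set A := |a|
  set B := |b|
  let S : Set ℤ := {m : ℤ | 0 ≤ m ∧ ∃ k : ℤ, 0 < k ∧ m ^ 2 + d = M * k ^ 2}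
  have hstep : ∀ m ∈ S, ∃ m' ∈ S, m + 1 ≤ m' := by
    rintro m ⟨hm, k, hk, he⟩
    refine ⟨m * A + M * k * B, ⟨by positivity, m * B + k * A, by positivity, ?_⟩, ?_⟩
    · linear_combination (A ^ 2 - M * B ^ 2) * he + (M * k ^ 2 - M * k ^ 2 - d) * hab' 
    · have h1 : m * 1 ≤ m * A := mul_le_mul_of_nonneg_left hA hm
      have h2 : 1 ≤ M * k * B := by
        have : 0 < M * k * B := by positivity
        omega
      linarith
  have hbase : |n0| ∈ S := ⟨abs_nonneg _, 1, one_pos, by rw [sq_abs, hM]; ring⟩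
  have hlarge : ∀ N : ℕ, ∃ m ∈ S, (N : ℤ) ≤ m := by
    intro N
    induction N with
    | zero => exact ⟨|n0|, hbase, by simp⟩
    | succ N ih =>
      obtain ⟨m, hm, hN⟩ := ih
      obtain ⟨m', hm', h⟩ := hstep m hm
      exact ⟨m', hm', by push_cast; linarith⟩
  refine Set.infinite_of_forall_exists_gt (fun N => ?_)
  obtain ⟨m, ⟨hm0, k, hk, he⟩, hN⟩ := hlarge (N + 1)
  refine ⟨m.toNat, ⟨by push_cast at hN; omega, ?_, ?_⟩, by push_cast at hN; omega⟩
  · rw [Int.toNat_of_nonneg hm0, he]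
    positivity
  · rw [Int.toNat_of_nonneg hm0, he, Om_mul hpos.ne' (by positivity), Om_sq hk.ne']
    exact hodd.add_even (even_two_mul _)

/-- the value `p w²` has odd `Ω` -/
lemma odd_prime_sq {p : ℕ} (hp : p.Prime) {w : ℤ} (hw : w ≠ 0) : Odd (Om ((p : ℤ) * w ^ 2)) := by
  rw [Om_mul (by exact_mod_cast hp.ne_zero) (by positivity), Om_prime hp, Om_sq hw]
  exact ⟨Om w, by ring⟩

/-- the case `-d` a square -/
lemma exists_odd_sq (f : ℤ) (hf : f ≠ 0) :
    ∃ x y : ℤ, 0 < x ^ 2 + (-(f ^ 2)) * y ^ 2 ∧ Odd (Om (x ^ 2 + (-(f ^ 2)) * y ^ 2)) := by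
  obtain ⟨p, hp, hpgt, hmod⟩ := Nat.exists_prime_gt_modEq_one (k := 2 * f.natAbs) 2 (by omega)
  have hdvd : ((2 * f.natAbs : ℕ) : ℤ) ∣ (p : ℤ) - 1 := by
    have := (Nat.modEq_iff_dvd.1 hmod.symm)
    simpa using this
  have hdvd2 : 2 * f ∣ (p : ℤ) - 1 := by
    refine dvd_trans ?_ hdvd
    push_cast
    exact mul_dvd_mul_left 2 ((dvd_abs f f).2 dvd_rfl)
  obtain ⟨y, hy⟩ := hdvd2
  have key : (f * y + 1) ^ 2 + (-(f ^ 2)) * y ^ 2 = (p : ℤ) * 1 ^ 2 := by linear_combination -hy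
  refine ⟨f * y + 1, y, ?_, ?_⟩
  · rw [key]; have := hp.pos; positivity
  · rw [key]; exact odd_prime_sq hp one_ne_zero

/-- Pigeonhole: a small nonzero vector with `x ≡ z (mod D)` and `x ≡ r y (mod p)`. -/
lemma small_vector (p D : ℕ) (hp : 0 < p) (hD : 0 < D) (r : ℤ) :
    ∃ x y z : ℤ, ¬ (x = 0 ∧ y = 0 ∧ z = 0) ∧ (D : ℤ) ∣ x - z ∧ (p : ℤ) ∣ x - r * y ∧
      x ^ 2 ≤ p * D ∧ y ^ 2 ≤ p ∧ z ^ 2 ≤ D := by
  classical
  haveI : NeZero p := ⟨hp.ne'⟩
  haveI : NeZero D := ⟨hD.ne'⟩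
  let X := Nat.sqrt (p * D)
  let Y := Nat.sqrt p
  let Z := Nat.sqrt D
  let φ : Fin (X + 1) × Fin (Y + 1) × Fin (Z + 1) → ZMod D × ZMod p := fun t =>
    (((t.1 : ℕ) : ZMod D) - ((t.2.2 : ℕ) : ZMod D), ((t.1 : ℕ) : ZMod p) - (r : ZMod p) * ((t.2.1 : ℕ) : ZMod p))
  have hcard : Fintype.card (ZMod D × ZMod p) < Fintype.card (Fin (X + 1) × Fin (Y + 1) × Fin (Z + 1)) := by
    simp only [Fintype.card_prod, ZMod.card, Fintype.card_fin]
    have h1 : p * D < (X + 1) * (X + 1) := Nat.sqrt_lt'.1 (Nat.lt_succ_self _) |>.trans_le (by rw [sq])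
    have h2 : p < (Y + 1) * (Y + 1) := Nat.sqrt_lt'.1 (Nat.lt_succ_self _) |>.trans_le (by rw [sq])
    have h3 : D < (Z + 1) * (Z + 1) := Nat.sqrt_lt'.1 (Nat.lt_succ_self _) |>.trans_le (by rw [sq])
    have h4 : (D * p) * (D * p) < ((X + 1) * ((Y + 1) * (Z + 1))) * ((X + 1) * ((Y + 1) * (Z + 1))) := by
      calc (D * p) * (D * p) = (p * D) * (p * D) := by ring
        _ < ((X + 1) * (X + 1)) * (p * D) := by
            apply Nat.mul_lt_mul_of_pos_right h1; positivity
        _ ≤ ((X + 1) * (X + 1)) * (((Y + 1) * (Y + 1)) * ((Z + 1) * (Z + 1))) := by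
            apply Nat.mul_le_mul_left
            exact Nat.mul_le_mul h2.le h3.le
        _ = _ := by ring
    exact Nat.mul_self_lt_mul_self_iff.1 h4
  obtain ⟨s, t, hst, he⟩ := Fintype.exists_ne_map_eq_of_card_lt φ hcard
  refine ⟨((s.1 : ℕ) : ℤ) - ((t.1 : ℕ) : ℤ), ((s.2.1 : ℕ) : ℤ) - ((t.2.1 : ℕ) : ℤ),
    ((s.2.2 : ℕ) : ℤ) - ((t.2.2 : ℕ) : ℤ), ?_, ?_, ?_, ?_, ?_, ?_⟩
  · rintro ⟨h1, h2, h3⟩
    apply hst
    have e1 : (s.1 : ℕ) = t.1 := by omega
    have e2 : (s.2.1 : ℕ) = t.2.1 := by omega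
    have e3 : (s.2.2 : ℕ) = t.2.2 := by omega
    exact Prod.ext (Fin.ext e1) (Prod.ext (Fin.ext e2) (Fin.ext e3))
  · have := congrArg Prod.fst he
    simp only [φ] at this
    rw [← ZMod.intCast_zmod_eq_zero_iff_dvd]
    push_cast
    linear_combination this
  · have := congrArg Prod.snd he
    simp only [φ] at this
    rw [← ZMod.intCast_zmod_eq_zero_iff_dvd]
    push_cast
    linear_combination this
  · have h1 : ((s.1 : ℕ) : ℤ) ≤ X := by have := s.1.2; omega
    have h2 : ((t.1 : ℕ) : ℤ) ≤ X := by have := t.1.2; omega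
    have h3 : ((X : ℤ)) * X ≤ p * D := by exact_mod_cast Nat.sqrt_le (p * D)
    have h4 : |((s.1 : ℕ) : ℤ) - ((t.1 : ℕ) : ℤ)| ≤ X := by rw [abs_le]; constructor <;> omega
    calc _ = |((s.1 : ℕ) : ℤ) - ((t.1 : ℕ) : ℤ)| ^ 2 := (sq_abs _).symm
      _ ≤ (X : ℤ) ^ 2 := by gcongr
      _ ≤ _ := by rw [sq]; exact h3
  · have h1 : ((s.2.1 : ℕ) : ℤ) ≤ Y := by have := s.2.1.2; omega
    have h2 : ((t.2.1 : ℕ) : ℤ) ≤ Y := by have := t.2.1.2; omega
    have h3 : ((Y : ℤ)) * Y ≤ p := by exact_mod_cast Nat.sqrt_le p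
    have h4 : |((s.2.1 : ℕ) : ℤ) - ((t.2.1 : ℕ) : ℤ)| ≤ Y := by rw [abs_le]; constructor <;> omega
    calc _ = |((s.2.1 : ℕ) : ℤ) - ((t.2.1 : ℕ) : ℤ)| ^ 2 := (sq_abs _).symm
      _ ≤ (Y : ℤ) ^ 2 := by gcongr
      _ ≤ _ := by rw [sq]; exact h3
  · have h1 : ((s.2.2 : ℕ) : ℤ) ≤ Z := by have := s.2.2.2; omega
    have h2 : ((t.2.2 : ℕ) : ℤ) ≤ Z := by have := t.2.2.2; omega
    have h3 : ((Z : ℤ)) * Z ≤ D := by exact_mod_cast Nat.sqrt_le D
    have h4 : |((s.2.2 : ℕ) : ℤ) - ((t.2.2 : ℕ) : ℤ)| ≤ Z := by rw [abs_le]; constructor <;> omega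
    calc _ = |((s.2.2 : ℕ) : ℤ) - ((t.2.2 : ℕ) : ℤ)| ^ 2 := (sq_abs _).symm
      _ ≤ (Z : ℤ) ^ 2 := by gcongr
      _ ≤ _ := by rw [sq]; exact h3

/-- the main case -/
lemma exists_odd_nonsq (d : ℤ) (hd0 : d ≠ 0) (hd1 : d ≠ 1) (hns : ∀ f : ℤ, d ≠ -(f ^ 2)) :
    ∃ x y : ℤ, 0 < x ^ 2 + d * y ^ 2 ∧ Odd (Om (x ^ 2 + d * y ^ 2)) := by
  set D : ℕ := d.natAbs with hD
  have hDpos : 0 < D := Int.natAbs_pos.2 hd0
  obtain ⟨p, hp, hpgt, hmod⟩ := Nat.exists_prime_gt_modEq_one (k := 4 * D) (4 * D) (by omega)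
  haveI : Fact p.Prime := ⟨hp⟩
  have hpodd : Odd p := hp.odd_of_ne_two (by omega)
  -- -d is a square mod p
  have hres : ∃ r : ℤ, (p : ℤ) ∣ r ^ 2 + d := by
    have h1 : jacobiSym (-d) p = 1 := by
      rw [jacobiSym.mod_right (-d) hpodd]
      have : p % (4 * (-d).natAbs) = 1 := by
        rw [Int.natAbs_neg, ← hD]
        have h2 : p % (4 * D) = 1 % (4 * D) := hmod
        rw [h2]
        exact Nat.mod_eq_of_lt (by omega)
      rw [this, jacobiSym.one_right]
    rw [← jacobiSym.legendreSym.to_jacobiSym] at h1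
    have h0 : ((-d : ℤ) : ZMod p) ≠ 0 := by
      intro h0
      rw [(legendreSym.eq_zero_iff p (-d)).2 h0] at h1
      exact absurd h1 (by norm_num)
    obtain ⟨r, hr⟩ := (legendreSym.eq_one_iff p h0).1 h1
    refine ⟨(r.val : ℤ), ?_⟩
    rw [← ZMod.intCast_zmod_eq_zero_iff_dvd]
    push_cast
    rw [ZMod.natCast_zmod_val]
    have : ((-d : ℤ) : ZMod p) = r * r := hr
    push_cast at this
    linear_combination -this
  obtain ⟨r, hr⟩ := hres
  obtain ⟨x, y, z, hne, hDd, hpd, hx, hy, hz⟩ := small_vector p D hp.pos hDpos r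
  have hdD : ((D : ℤ)) = |d| := by rw [hD]; simp
  have hpZ : (0 : ℤ) < p := by exact_mod_cast hp.pos
  have hDZ : (0 : ℤ) < D := by exact_mod_cast hDpos
  have hpD4 : ((4 * D : ℕ) : ℤ) < p := by exact_mod_cast hpgt
  -- divisibility
  have hp1 : (D : ℤ) ∣ (p : ℤ) - 1 := by
    have h1 := (Nat.modEq_iff_dvd.1 hmod.symm)
    have h2 : ((4 * D : ℕ) : ℤ) ∣ (p : ℤ) - 1 := by simpa using h1
    refine dvd_trans ?_ h2
    push_cast
    exact Dvd.intro_left 4 rfl
  have hDdd : (D : ℤ) ∣ d := by rw [hdD]; exact (abs_dvd d d).2 dvd_rfl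
  have hF1 : (D : ℤ) ∣ x ^ 2 + d * y ^ 2 - p * z ^ 2 := by
    have : x ^ 2 + d * y ^ 2 - p * z ^ 2 = (x - z) * (x + z) + d * y ^ 2 - (p - 1) * z ^ 2 := by ring
    rw [this]
    exact dvd_sub (dvd_add (Dvd.dvd.mul_right hDd _) (Dvd.dvd.mul_right hDdd _)) (Dvd.dvd.mul_right hp1 _)
  have hF2 : (p : ℤ) ∣ x ^ 2 + d * y ^ 2 - p * z ^ 2 := by
    have : x ^ 2 + d * y ^ 2 - p * z ^ 2 = (x - r * y) * (x + r * y) + (r ^ 2 + d) * y ^ 2 - p * z ^ 2 := by
      ring
    rw [this]
    exact dvd_sub (dvd_add (Dvd.dvd.mul_right hpd _) (Dvd.dvd.mul_right hr _)) (Dvd.intro _ rfl)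
  have hcop : IsCoprime (D : ℤ) (p : ℤ) := by
    rw [Nat.isCoprime_iff_coprime]
    exact (Nat.coprime_of_lt_prime hDpos.ne' (by omega) hp).symm
  have hF : (D : ℤ) * p ∣ x ^ 2 + d * y ^ 2 - p * z ^ 2 := hcop.mul_dvd hF1 hF2
  obtain ⟨c, hc⟩ := hF
  -- strictness
  have hy' : y ^ 2 < p := by
    rcases lt_or_eq_of_le hy with h | h
    · exact h
    · exfalso
      have : y.natAbs ^ 2 = p := by
        have := congrArg Int.natAbs h
        simpa [Int.natAbs_pow] using this
      exact (Nat.Prime.not_prime_pow (le_refl 2)) (this ▸ hp)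
  have hx' : x ^ 2 < p * D := by
    rcases lt_or_eq_of_le hx with h | h
    · exact h
    · exfalso
      have h1 : (p : ℤ) ∣ x ^ 2 := by rw [h]; exact Dvd.intro _ rfl
      have h2 : (p : ℤ) ∣ x := (Nat.prime_iff_prime_int.1 hp).dvd_of_dvd_pow h1
      obtain ⟨x', rfl⟩ := h2
      have h3 : (p : ℤ) * x' ^ 2 = D := by
        have : (p : ℤ) * ((p : ℤ) * x' ^ 2) = p * D := by linear_combination h
        exact mul_left_cancel₀ hpZ.ne' this
      have h4 : x' ^ 2 ≠ 0 := by
        intro h0; rw [h0] at h3; simp at h3; omega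
      have h5 : 1 ≤ x' ^ 2 := by
        have := sq_nonneg x'
        omega
      push_cast at hpD4
      nlinarith
  -- F is 0 or p d
  have hcase : x ^ 2 + d * y ^ 2 - p * z ^ 2 = 0 ∨ x ^ 2 + d * y ^ 2 - p * z ^ 2 = p * d := by
    rcases lt_or_gt_of_ne hd0 with hneg | hpos
    · have hDe : (D : ℤ) = -d := by rw [hdD, abs_of_neg hneg]
      have hub : x ^ 2 + d * y ^ 2 - p * z ^ 2 < D * p := by nlinarith [sq_nonneg y, sq_nonneg z]
      have hlb : -2 * (D * p) < x ^ 2 + d * y ^ 2 - p * z ^ 2 := by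
        have h1 : -(D * p : ℤ) < d * y ^ 2 := by
          have : d * y ^ 2 = -(D * y ^ 2) := by rw [hDe]; ring
          rw [this]
          have := mul_lt_mul_of_pos_left hy' hDZ
          linarith
        have h2 : (p : ℤ) * z ^ 2 ≤ p * D := mul_le_mul_of_nonneg_left hz hpZ.le
        nlinarith [sq_nonneg x]
      rw [hc] at hub hlb ⊢
      have hDp : (0 : ℤ) < D * p := by positivity
      have hc1 : c < 1 := by nlinarith
      have hc2 : -2 < c := by nlinarith
      have : c = 0 ∨ c = -1 := by omega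
      rcases this with rfl | rfl
      · left; ring
      · right; rw [hDe]; ring
    · have hDe : (D : ℤ) = d := by rw [hdD, abs_of_pos hpos]
      have hub : x ^ 2 + d * y ^ 2 - p * z ^ 2 < 2 * (D * p) := by
        have h1 : d * y ^ 2 < D * p := by
          rw [← hDe]
          exact mul_lt_mul_of_pos_left hy' hDZ
        have : 0 ≤ (p : ℤ) * z ^ 2 := by positivity
        nlinarith
      have hlb : -(D * p : ℤ) ≤ x ^ 2 + d * y ^ 2 - p * z ^ 2 := by
        have h2 : (p : ℤ) * z ^ 2 ≤ p * D := mul_le_mul_of_nonneg_left hz hpZ.le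
        have : 0 ≤ d * y ^ 2 := by positivity
        nlinarith [sq_nonneg x]
      have hne' : x ^ 2 + d * y ^ 2 - p * z ^ 2 ≠ -(D * p : ℤ) := by
        intro h
        have h2 : (p : ℤ) * z ^ 2 ≤ p * D := mul_le_mul_of_nonneg_left hz hpZ.le
        have h3 : 0 ≤ d * y ^ 2 := by positivity
        have h4 : x ^ 2 = 0 := by nlinarith [sq_nonneg x]
        have h5 : z ^ 2 = D := by
          have h6 : (p : ℤ) * z ^ 2 = p * D := by nlinarith [sq_nonneg x]
          exact mul_left_cancel₀ hpZ.ne' h6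
        have hx0 : x = 0 := by simpa using h4
        rw [hx0, zero_sub, dvd_neg] at hDd
        obtain ⟨w, rfl⟩ := hDd
        have h7 : (D : ℤ) * (D * w ^ 2) = D * 1 := by linear_combination h5
        have h8 : (D : ℤ) * w ^ 2 = 1 := mul_left_cancel₀ hDZ.ne' h7
        have h9 : (D : ℤ) ∣ 1 := ⟨w ^ 2, h8.symm⟩
        have h10 : (D : ℤ) = 1 := Int.eq_one_of_dvd_one hDZ.le h9
        exact hd1 (by rw [← hDe]; exact h10)
      rw [hc] at hub hlb hne' ⊢
      have hDp : (0 : ℤ) < D * p := by positivity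
      have hc1 : c < 2 := by nlinarith
      have hc2 : -1 ≤ c := by nlinarith
      have hc3 : c ≠ -1 := by
        rintro rfl
        apply hne'
        ring
      have : c = 0 ∨ c = 1 := by omega
      rcases this with rfl | rfl
      · left; ring
      · right; rw [hDe]; ring
  -- isotropy
  have hiso : ∀ u v : ℤ, u ^ 2 + d * v ^ 2 = 0 → u = 0 ∧ v = 0 := by
    intro u v huv
    rcases eq_or_ne v 0 with rfl | hv
    · constructor
      · have : u ^ 2 = 0 := by linear_combination huv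
        simpa using this
      · rfl
    · exfalso
      have h1 : v ^ 2 ∣ u ^ 2 := ⟨-d, by linear_combination huv⟩
      have h2 : v ∣ u := (Int.pow_dvd_pow_iff two_ne_zero).1 h1
      obtain ⟨f, rfl⟩ := h2
      apply hns f
      have h3 : v ^ 2 * (f ^ 2 + d) = v ^ 2 * 0 := by linear_combination huv
      have := mul_left_cancel₀ (pow_ne_zero 2 hv) h3
      linarith
  rcases hcase with h | h
  · have hz0 : z ≠ 0 := by
      rintro rfl
      have := hiso x y (by linear_combination h)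
      exact hne ⟨this.1, this.2, rfl⟩
    have key : x ^ 2 + d * y ^ 2 = (p : ℤ) * z ^ 2 := by linear_combination h
    refine ⟨x, y, ?_, ?_⟩
    · rw [key]; positivity
    · rw [key]; exact odd_prime_sq hp hz0
  · have hw : z ^ 2 + d ≠ 0 := by
      intro h0
      exact hns z (by linarith)
    have key : (x * z - d * y) ^ 2 + d * (x + y * z) ^ 2 = (p : ℤ) * (z ^ 2 + d) ^ 2 := by
      linear_combination (z ^ 2 + d) * h
    refine ⟨x * z - d * y, x + y * z, ?_, ?_⟩
    · rw [key]; positivity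
    · rw [key]; exact odd_prime_sq hp hw

/-- some value `x² + d y²` is positive with odd `Ω` -/
lemma exists_odd (d : ℤ) (hd0 : d ≠ 0) :
    ∃ x y : ℤ, 0 < x ^ 2 + d * y ^ 2 ∧ Odd (Om (x ^ 2 + d * y ^ 2)) := by
  by_cases hs : ∃ f : ℤ, d = -(f ^ 2)
  · obtain ⟨f, rfl⟩ := hs
    exact exists_odd_sq f (by rintro rfl; simp at hd0)
  · push Not at hs
    by_cases h1 : d = 1
    · subst h1
      refine ⟨1, 1, by norm_num, ?_⟩
      have : (1 : ℤ) ^ 2 + 1 * 1 ^ 2 = ((2 : ℕ) : ℤ) * 1 ^ 2 := by norm_num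
      rw [this]
      exact odd_prime_sq Nat.prime_two one_ne_zero
    · exact exists_odd_nonsq d hd0 h1 hs

/-- **Main theorem.** For every nonzero `d` there are infinitely many `n` with `n² + d > 0` having
an odd number of prime factors. -/
theorem main (d : ℤ) (hd0 : d ≠ 0) :
    Set.Infinite {n : ℕ | 1 ≤ n ∧ 0 < (n : ℤ) ^ 2 + d ∧ Odd (Om ((n : ℤ) ^ 2 + d))} := by
  obtain ⟨x, y, hpos, hodd⟩ := exists_odd d hd0
  by_contra hfin
  have H : ∀ n : ℤ, 0 < n ^ 2 + d → Even (Om (n ^ 2 + d)) := by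
    intro n hn
    by_contra hne
    exact hfin (pell_inf d n hn (Nat.not_even_iff_odd.1 hne))
  exact (Nat.not_even_iff_odd.2 hodd) (descent d H y.natAbs x y rfl hpos)

end Pool.Agent.X19.LQ
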