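import Pool.Agent.X189.BS.Stm

set_option autoImplicit false

namespace Pool.Agent.X19.BSK

open Equiv Pool.Agent.X189.BS

variable {n : ℕ}

theorem C_snoc (q : ℤ) (P : List (Fin (n + 1) × Fin (n + 1))) (e : Fin (n + 1) × Fin (n + 1)) :
    C q (P ++ [e]) = cstep q (C q P) e := by
  unfold C
  rw [List.foldl_append]
  rfl

theorem Val_prefix {a c : Fin (n + 1)} {P : List (Fin (n + 1) × Fin (n + 1))} {e : Fin (n + 1) × Fin (n + 1)}
    (h : Val a c (P ++ [e])) : Val a c P := by
  intro P' e' S' hP
  exact h P' e' (S' ++ [e]) (by rw [hP]; simp)

theorem Val_last {a c : Fin (n + 1)} {P : List (Fin (n + 1) × Fin (n + 1))} {e : Fin (n + 1) × Fin (n + 1)}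
    (h : Val a c (P ++ [e])) : a ≤ e.1 ∧ e.1 < e.2 ∧ e.2 ≤ c ∧ e ∉ P ∧
    (∀ z, e.2 < z → z ≤ c → ((e.2, z) ∈ P ↔ (e.1, z) ∈ P)) ∧
    (∀ z, a ≤ z → z < e.1 → ((z, e.1) ∈ P ↔ (z, e.2) ∈ P)) ∧
    (∀ z, e.1 < z → z < e.2 → ((e.1, z) ∈ P ↔ (z, e.2) ∉ P)) := h P e [] rfl

theorem C_nil (q : ℤ) (g : Perm (Fin (n + 1))) : C q [] g = if g = 1 then 1 else 0 := rfl

theorem cstep_ne (q : ℤ) (f : Perm (Fin (n + 1)) → ℤ) (e : Fin (n + 1) × Fin (n + 1)) (g : Perm (Fin (n + 1)))
    (h : cstep q f e g ≠ 0) : f g ≠ 0 ∨ f (swap e.1 e.2 * g) ≠ 0 := by
  by_contra hc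
  push Not at hc
  apply h
  unfold cstep
  rw [hc.1, hc.2]
  simp

theorem supp_top (q : ℤ) (a c : Fin (n + 1)) (L : List (Fin (n + 1) × Fin (n + 1))) (hV : Val a c L) :
    ∀ g : Perm (Fin (n + 1)), C q L g ≠ 0 → g c = c ∨ (g c, c) ∈ L := by
  induction L using List.reverseRecOn with
  | nil =>
    intro g hg
    left
    rw [C_nil] at hg
    by_cases h : g = 1
    · rw [h]; rfl
    · rw [if_neg h] at hg; exact absurd rfl hg
  | append_singleton P e ih =>
    intro g hg
    have hl := Val_last hV
    have ih' := ih (Val_prefix hV)
    rw [C_snoc] at hg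
    rcases cstep_ne q _ e g hg with h | h
    · rcases ih' g h with h | h
      · exact Or.inl h
      · right; simp [h]
    · have h2 := ih' _ h
      rw [Perm.mul_apply] at h2
      by_cases h3 : g c = e.1
      · rw [h3, swap_apply_left] at h2
        by_cases h4 : e.2 = c
        · right; rw [h3]
          simp only [List.mem_append, List.mem_singleton]
          right
          rw [← h4]
        · right
          rcases h2 with h2 | h2
          · exact absurd h2 h4
          · rw [h3]
            simp only [List.mem_append, List.mem_singleton]
            left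
            exact (hl.2.2.2.2.1 c (lt_of_le_of_ne hl.2.2.1 h4) le_rfl).1 h2
      · by_cases h5 : g c = e.2
        · rw [h5, swap_apply_right] at h2
          by_cases h4 : e.2 = c
          · left; rw [h5, h4]
          · right
            rcases h2 with h2 | h2
            · exfalso
              have := hl.2.1
              have := hl.2.2.1
              rw [h2] at *
              omega
            · rw [h5]
              simp only [List.mem_append, List.mem_singleton]
              left
              exact (hl.2.2.2.2.1 c (lt_of_le_of_ne hl.2.2.1 h4) le_rfl).2 h2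
        · rw [swap_apply_of_ne_of_ne h3 h5] at h2
          rcases h2 with h2 | h2
          · exact Or.inl h2
          · right; simp [h2]

theorem supp_bot (q : ℤ) (a c : Fin (n + 1)) (L : List (Fin (n + 1) × Fin (n + 1))) (hV : Val a c L) :
    ∀ g : Perm (Fin (n + 1)), C q L g ≠ 0 → g a = a ∨ (a, g a) ∈ L := by
  induction L using List.reverseRecOn with
  | nil =>
    intro g hg
    left
    rw [C_nil] at hg
    by_cases h : g = 1
    · rw [h]; rfl
    · rw [if_neg h] at hg; exact absurd rfl hg
  | append_singleton P e ih =>
    intro g hg
    have hl := Val_last hV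
    have ih' := ih (Val_prefix hV)
    rw [C_snoc] at hg
    rcases cstep_ne q _ e g hg with h | h
    · rcases ih' g h with h | h
      · exact Or.inl h
      · right; simp [h]
    · have h2 := ih' _ h
      rw [Perm.mul_apply] at h2
      by_cases h3 : g a = e.2
      · rw [h3, swap_apply_right] at h2
        by_cases h4 : e.1 = a
        · right; rw [h3]
          simp only [List.mem_append, List.mem_singleton]
          right
          rw [← h4]
        · right
          rcases h2 with h2 | h2
          · exact absurd h2 h4
          · rw [h3]
            simp only [List.mem_append, List.mem_singleton]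
            left
            exact (hl.2.2.2.2.2.1 a le_rfl (lt_of_le_of_ne hl.1 (Ne.symm h4))).1 h2
      · by_cases h5 : g a = e.1
        · rw [h5, swap_apply_left] at h2
          by_cases h4 : e.1 = a
          · left; rw [h5, h4]
          · right
            rcases h2 with h2 | h2
            · exfalso
              have := hl.2.1
              have := hl.1
              rw [h2] at *
              omega
            · rw [h5]
              simp only [List.mem_append, List.mem_singleton]
              left
              exact (hl.2.2.2.2.2.1 a le_rfl (lt_of_le_of_ne hl.1 (Ne.symm h4))).2 h2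
        · rw [swap_apply_of_ne_of_ne h5 h3] at h2
          rcases h2 with h2 | h2
          · exact Or.inl h2
          · right; simp [h2]

theorem symm_eq {g : Perm (Fin (n + 1))} {z : Fin (n + 1)} (h : g z = z) : g.symm z = z := by
  rw [Equiv.symm_apply_eq]; exact h.symm

theorem cut_top (q : ℤ) (a c : Fin (n + 1)) (L : List (Fin (n + 1) × Fin (n + 1))) (hV : Val a c L) :
    ∀ g : Perm (Fin (n + 1)), (∀ z, c ≤ z → g z = z) → C q L g = C q (L.filter fun e => e.2 ≠ c) g := by
  induction L using List.reverseRecOn with
  | nil => intro g _; rfl
  | append_singleton P e ih =>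
    intro g hg
    have hl := Val_last hV
    have ih' := ih (Val_prefix hV)
    rw [List.filter_append, C_snoc]
    by_cases h4 : e.2 = c
    · have h5 : ([e].filter fun e => e.2 ≠ c) = [] := by simp [h4]
      rw [h5, List.append_nil, ← ih' g hg]
      have h6 : C q P (swap e.1 e.2 * g) = 0 := by
        by_contra hne
        rcases supp_top q a c P (Val_prefix hV) _ hne with h | h
        · rw [Perm.mul_apply, hg c le_rfl, h4, swap_apply_right] at h
          have := hl.2.1
          rw [h, h4] at this
          exact lt_irrefl _ this
        · rw [Perm.mul_apply, hg c le_rfl, h4, swap_apply_right] at h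
          apply hl.2.2.2.1
          rw [← h4] at h
          exact h
      unfold cstep
      rw [h6]
      have h7 : ¬ g.symm e.2 < g.symm e.1 := by
        rw [h4, symm_eq (hg c le_rfl), not_lt]
        by_contra h8
        push Not at h8
        have h9 := hg (g.symm e.1) h8.le
        rw [Equiv.apply_symm_apply] at h9
        rw [← h9] at h8
        have := hl.2.1
        rw [h4] at this
        exact absurd (h8.trans this) (lt_irrefl _)
      rw [if_neg h7]
      ring
    · have h5 : ([e].filter fun e => e.2 ≠ c) = [e] := by simp [h4]
      rw [h5, C_snoc]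
      unfold cstep
      have h6 := ih' g hg
      have h7 := ih' (swap e.1 e.2 * g) (by
        intro z hz
        rw [Perm.mul_apply, hg z hz]
        have h8 : e.2 < c := lt_of_le_of_ne hl.2.2.1 h4
        refine swap_apply_of_ne_of_ne ?_ ?_
        · rintro rfl
          exact absurd (hz.trans_lt (hl.2.1.trans h8)) (lt_irrefl _)
        · rintro rfl
          exact absurd (hz.trans_lt h8) (lt_irrefl _))
      rw [h6, h7]

theorem cut_bot (q : ℤ) (a c : Fin (n + 1)) (L : List (Fin (n + 1) × Fin (n + 1))) (hV : Val a c L) :
    ∀ g : Perm (Fin (n + 1)), (∀ z, z ≤ a → g z = z) → C q L g = C q (L.filter fun e => e.1 ≠ a) g := by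
  induction L using List.reverseRecOn with
  | nil => intro g _; rfl
  | append_singleton P e ih =>
    intro g hg
    have hl := Val_last hV
    have ih' := ih (Val_prefix hV)
    rw [List.filter_append, C_snoc]
    by_cases h4 : e.1 = a
    · have h5 : ([e].filter fun e => e.1 ≠ a) = [] := by simp [h4]
      rw [h5, List.append_nil, ← ih' g hg]
      have h6 : C q P (swap e.1 e.2 * g) = 0 := by
        by_contra hne
        rcases supp_bot q a c P (Val_prefix hV) _ hne with h | h
        · rw [Perm.mul_apply, hg a le_rfl, h4, swap_apply_left] at h
          have := hl.2.1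
          rw [h, h4] at this
          exact lt_irrefl _ this
        · rw [Perm.mul_apply, hg a le_rfl, h4, swap_apply_left] at h
          apply hl.2.2.2.1
          rw [← h4] at h
          exact h
      unfold cstep
      rw [h6]
      have h7 : ¬ g.symm e.2 < g.symm e.1 := by
        rw [h4, symm_eq (hg a le_rfl), not_lt]
        by_contra h8
        push Not at h8
        have h9 := hg (g.symm e.2) h8.le
        rw [Equiv.apply_symm_apply] at h9
        rw [← h9] at h8
        have := hl.2.1
        rw [h4] at this
        exact absurd (this.trans h8) (lt_irrefl _)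
      rw [if_neg h7]
      ring
    · have h5 : ([e].filter fun e => e.1 ≠ a) = [e] := by simp [h4]
      rw [h5, C_snoc]
      unfold cstep
      have h6 := ih' g hg
      have h7 := ih' (swap e.1 e.2 * g) (by
        intro z hz
        rw [Perm.mul_apply, hg z hz]
        have h8 : a < e.1 := lt_of_le_of_ne hl.1 (Ne.symm h4)
        refine swap_apply_of_ne_of_ne ?_ ?_
        · rintro rfl
          exact absurd (h8.trans_le hz) (lt_irrefl _)
        · rintro rfl
          exact absurd ((h8.trans hl.2.1).trans_le hz) (lt_irrefl _))
      rw [h6, h7]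

theorem t_K : S_K := by
  intro n q L a c hV hL g hg
  -- top
  have htop : ∀ k (hk : k < n + 1), c.val ≤ k → C q (res 0 ⟨k, hk⟩ L) g = C q (res 0 c L) g := by
    intro k
    induction k with
    | zero =>
      intro hk hc
      have : c = ⟨0, hk⟩ := Fin.ext (Nat.le_zero.1 hc)
      rw [this]
    | succ k ih =>
      intro hk hc
      by_cases h : c.val = k + 1
      · have : c = ⟨k + 1, hk⟩ := Fin.ext h
        rw [this]
      · have h1 := cut_top q 0 ⟨k + 1, hk⟩ (res 0 ⟨k + 1, hk⟩ L) (hV _ _) g (by
          intro z hz
          refine hg z (Or.inr ?_)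
          rw [Fin.le_def] at hz
          rw [Fin.lt_def]
          simp at hz
          omega)
        rw [h1, ← ih (by omega) (by omega)]
        congr 1
        unfold res
        rw [List.filter_filter]
        refine List.filter_congr fun e _ => ?_
        simp only [ne_eq, Fin.zero_le, true_and, Fin.le_def, Fin.ext_iff, decide_eq_decide, Bool.decide_and,
          decide_not, ← Bool.decide_and]
        rw [← decide_not, ← Bool.decide_and]
        rw [decide_eq_decide]
        omega
  have hbot : ∀ s (hs : s < n + 1), s ≤ a.val → C q (res ⟨s, hs⟩ c L) g = C q (res 0 c L) g := by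
    intro s
    induction s with
    | zero => intro hs _; rfl
    | succ s ih =>
      intro hs ha
      rw [← ih (by omega) (by omega)]
      have h1 := cut_bot q ⟨s, by omega⟩ c (res ⟨s, by omega⟩ c L) (hV _ _) g (by
          intro z hz
          refine hg z (Or.inl ?_)
          rw [Fin.le_def] at hz
          rw [Fin.lt_def]
          simp at hz
          omega)
      rw [h1]
      congr 1
      unfold res
      rw [List.filter_filter]
      refine List.filter_congr fun e _ => ?_
      simp only [Fin.le_def, ne_eq, Fin.ext_iff]
      rw [← Bool.decide_and, decide_eq_decide]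
      omega
  have h0 : C q L g = C q (res 0 (Fin.last n) L) g := by
    congr 1
    unfold res
    rw [List.filter_eq_self.2]
    intro e _
    simp [Fin.le_last]
  rw [h0]
  have h1 := htop n (by omega) (by have := c.2; omega)
  have h2 := hbot a.val a.2 le_rfl
  rw [show (Fin.last n) = ⟨n, by omega⟩ from rfl, h1, ← h2]

end Pool.Agent.X19.BSK
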